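import Mathlib

set_option autoImplicit false

open Finset

namespace Pool.Agent.H590Z.HC

namespace H738

lemma wsum (K k : ℕ) (hk : k < K) : ∑ j ∈ range K, 1 / ((k : ℝ) - j) ^ 2 ≤ 4 := by
  set f : ℕ → ℝ := fun j => 1 / ((j : ℝ) - k - 1 / 2) with hf
  have h1 : ∑ j ∈ range K, (f j - f (j + 1)) = f 0 - f K := Finset.sum_range_sub' f K
  have h2 : ∀ j ∈ range K, 1 / ((k : ℝ) - j) ^ 2 ≤
      (f j - f (j + 1)) + if j = k then 4 else 0 := by
    intro j _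
    by_cases h : j = k
    · subst h
      simp only [hf, if_true]
      push_cast
      norm_num
    · rw [if_neg h, add_zero]
      have hl : 1 ≤ ((k : ℝ) - j) ^ 2 := by
        have : (1 : ℤ) ≤ ((k : ℤ) - j) ^ 2 := by
          have : (k : ℤ) - j ≠ 0 := by omega
          have := Int.one_le_abs this
          nlinarith [sq_abs ((k : ℤ) - j)]
        exact_mod_cast this
      have a1 : (j : ℝ) - k - 1 / 2 ≠ 0 := by intro e; nlinarith
      have a2 : (j : ℝ) + 1 - k - 1 / 2 ≠ 0 := by intro e; nlinarith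
      have e : f j - f (j + 1) = 1 / (((k : ℝ) - j) ^ 2 - 1 / 4) := by
        simp only [hf]
        push_cast
        rw [div_sub_div _ _ a1 a2]
        congr 1 <;> ring
      rw [e]
      exact one_div_le_one_div_of_le (by linarith) (by linarith)
  refine (Finset.sum_le_sum h2).trans ?_
  rw [Finset.sum_add_distrib, h1, Finset.sum_ite_eq' (range K) k (fun _ => (4 : ℝ)),
    if_pos (Finset.mem_range.2 hk)]
  have b1 : f 0 ≤ 0 := by
    simp only [hf]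
    apply div_nonpos_of_nonneg_of_nonpos zero_le_one
    have : (0 : ℝ) ≤ k := Nat.cast_nonneg k
    push_cast
    linarith
  have b2 : 0 ≤ f K := by
    simp only [hf]
    apply div_nonneg zero_le_one
    have : (k : ℝ) + 1 ≤ K := by exact_mod_cast hk
    linarith
  linarith

lemma one_le_abs {k j : ℕ} (h : j ≠ k) : 1 ≤ |(k : ℝ) - j| := by
  have : (k : ℤ) - j ≠ 0 := by omega
  have := Int.one_le_abs this
  exact_mod_cast this

lemma low {l v : ℝ} (hl : 1 ≤ |l|) (hv : |v| ≤ 51 / 100) : 49 / 100 * |l| ≤ |l + v| := by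
  have := abs_add_le (l + v) (-v)
  rw [add_neg_cancel_right, abs_neg] at this
  linarith

lemma diff {l v w b : ℝ} (hl : 1 ≤ |l|) (hv : |v| ≤ 51 / 100) (hw : |w| ≤ 51 / 100)
    (hb : |w - v| ≤ b) : |1 / (l + v) - 1 / (l + w)| ≤ b * (9 / 2) * (1 / l ^ 2) := by
  have h1 := low hl hv
  have h2 := low hl hw
  have p1 : 0 < |l + v| := by linarith
  have p2 : 0 < |l + w| := by linarith
  have n1 : l + v ≠ 0 := abs_pos.1 p1
  have n2 : l + w ≠ 0 := abs_pos.1 p2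
  have b0 : 0 ≤ b := (abs_nonneg _).trans hb
  have e : 1 / (l + v) - 1 / (l + w) = (w - v) / ((l + v) * (l + w)) := by
    field_simp; ring
  have l2 : 0 < l ^ 2 := by rw [← sq_abs]; positivity
  rw [e, abs_div, abs_mul, div_le_iff₀ (mul_pos p1 p2)]
  have h3 : 49 / 100 * |l| * (49 / 100 * |l|) ≤ |l + v| * |l + w| :=
    mul_le_mul h1 h2 (by positivity) p1.le
  have h4 : b * (9 / 2) * (1 / l ^ 2) * (49 / 100 * |l| * (49 / 100 * |l|)) ≤
      b * (9 / 2) * (1 / l ^ 2) * (|l + v| * |l + w|) :=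
    mul_le_mul_of_nonneg_left h3 (by positivity)
  have h5 : b * (9 / 2) * (1 / l ^ 2) * (49 / 100 * |l| * (49 / 100 * |l|)) =
      b * (9 / 2 * (49 / 100) ^ 2) := by
    have : |l| * |l| = l ^ 2 := by rw [← sq_abs]; ring
    have h6 : 49 / 100 * |l| * (49 / 100 * |l|) = (49 / 100) ^ 2 * l ^ 2 := by
      rw [← this]; ring
    rw [h6]
    have h7 : 1 / l ^ 2 * l ^ 2 = 1 := one_div_mul_cancel l2.ne'
    calc b * (9 / 2) * (1 / l ^ 2) * ((49 / 100) ^ 2 * l ^ 2)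
        = b * (9 / 2 * (49 / 100) ^ 2) * (1 / l ^ 2 * l ^ 2) := by ring
      _ = _ := by rw [h7, mul_one]
  nlinarith

lemma sdiff (c : ℕ → ℂ) (K k : ℕ) {v w b : ℝ} (hv : |v| ≤ 51 / 100) (hw : |w| ≤ 51 / 100)
    (hb : |w - v| ≤ b) :
    ‖∑ j ∈ (range K).erase k, c j / ((((k : ℝ) - j) + v : ℝ) : ℂ) -
      ∑ j ∈ (range K).erase k, c j / ((((k : ℝ) - j) + w : ℝ) : ℂ)‖ ≤
      b * (9 / 2) * ∑ j ∈ range K, ‖c j‖ * (1 / ((k : ℝ) - j) ^ 2) := by
  rw [← Finset.sum_sub_distrib,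
    ← Finset.sum_erase (range K) (a := k) (f := fun j => ‖c j‖ * (1 / ((k : ℝ) - j) ^ 2))
      (by simp), Finset.mul_sum]
  refine norm_sum_le_of_le _ (fun j hj => ?_)
  have hl := one_le_abs (Finset.ne_of_mem_erase hj)
  have e : c j / ((((k : ℝ) - j) + v : ℝ) : ℂ) - c j / ((((k : ℝ) - j) + w : ℝ) : ℂ) =
      c j * ((1 / (((k : ℝ) - j) + v) - 1 / (((k : ℝ) - j) + w) : ℝ) : ℂ) := by
    push_cast; ring
  rw [e, norm_mul, Complex.norm_real, Real.norm_eq_abs]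
  have := mul_le_mul_of_nonneg_left (diff hl hv hw hb) (norm_nonneg (c j))
  linarith

lemma scale (c : ℕ → ℂ) (K k : ℕ) {s : ℝ} (hs : 0 < s) (u : ℝ) :
    ∑ j ∈ (range K).erase k, c j / ((((k : ℝ) - j) * s + u : ℝ) : ℂ) =
      (∑ j ∈ (range K).erase k, c j / ((((k : ℝ) - j) + u / s : ℝ) : ℂ)) / (s : ℂ) := by
  rw [Finset.sum_div]
  apply Finset.sum_congr rfl
  intro j _
  have e : ((k : ℝ) - j) * s + u = (((k : ℝ) - j) + u / s) * s := by field_simp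
  rw [e, Complex.ofReal_mul, div_div]

lemma main (c : ℕ → ℂ) (K k : ℕ) (hk : k < K) {v : ℝ} (hv : |v| ≤ 51 / 100) :
    ‖∑ j ∈ (range K).erase k, c j / ((((k : ℝ) - j) + v : ℝ) : ℂ)‖ ≤
      ‖∑ j ∈ range K, c j / ((k : ℂ) + 1 / 2 - j)‖ + 2 * ‖c k‖ +
        5 * ∑ j ∈ range K, ‖c j‖ * (1 / ((k : ℝ) - j) ^ 2) := by
  have hw : |(1 / 2 : ℝ)| ≤ 51 / 100 := by rw [abs_of_pos (by norm_num)]; norm_num
  have hb : |1 / 2 - v| ≤ 101 / 100 := by
    rw [abs_le] at hv ⊢; constructor <;> linarith [hv.1, hv.2]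
  have h1 := sdiff c K k hv hw hb
  have h2 : ∑ j ∈ (range K).erase k, c j / ((((k : ℝ) - j) + 1 / 2 : ℝ) : ℂ) =
      ∑ j ∈ range K, c j / ((k : ℂ) + 1 / 2 - j) - 2 * c k := by
    rw [← Finset.add_sum_erase (range K) _ (Finset.mem_range.2 hk)]
    have e : ∀ j ∈ (range K).erase k, c j / ((((k : ℝ) - j) + 1 / 2 : ℝ) : ℂ) =
        c j / ((k : ℂ) + 1 / 2 - j) := by
      intro j _
      congr 1
      push_cast; ring
    rw [Finset.sum_congr rfl e]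
    have e2 : (k : ℂ) + 1 / 2 - k = 1 / 2 := by ring
    rw [e2]
    ring
  rw [h2] at h1
  set A := ∑ j ∈ (range K).erase k, c j / ((((k : ℝ) - j) + v : ℝ) : ℂ)
  set H := ∑ j ∈ range K, c j / ((k : ℂ) + 1 / 2 - j)
  have h3 : ‖A‖ ≤ ‖A - (H - 2 * c k)‖ + ‖H - 2 * c k‖ := by
    have := norm_add_le (A - (H - 2 * c k)) (H - 2 * c k)
    rwa [sub_add_cancel] at this
  have h4 : ‖H - 2 * c k‖ ≤ ‖H‖ + 2 * ‖c k‖ := by
    have := norm_sub_le H (2 * c k)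
    rwa [norm_mul, Complex.norm_two] at this
  have h5 : 0 ≤ ∑ j ∈ range K, ‖c j‖ * (1 / ((k : ℝ) - j) ^ 2) :=
    Finset.sum_nonneg (fun j _ => by positivity)
  linarith

lemma schur (c : ℕ → ℂ) (K : ℕ) :
    ∑ k ∈ range K, (∑ j ∈ range K, ‖c j‖ * (1 / ((k : ℝ) - j) ^ 2)) ^ 2 ≤
      16 * ∑ j ∈ range K, ‖c j‖ ^ 2 := by
  have h1 : ∀ k ∈ range K, (∑ j ∈ range K, ‖c j‖ * (1 / ((k : ℝ) - j) ^ 2)) ^ 2 ≤
      4 * ∑ j ∈ range K, ‖c j‖ ^ 2 * (1 / ((k : ℝ) - j) ^ 2) := by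
    intro k hk
    have a := Finset.sum_sq_le_sum_mul_sum_of_sq_eq_mul (range K)
      (r := fun j => ‖c j‖ * (1 / ((k : ℝ) - j) ^ 2))
      (f := fun j => 1 / ((k : ℝ) - j) ^ 2)
      (g := fun j => ‖c j‖ ^ 2 * (1 / ((k : ℝ) - j) ^ 2))
      (fun j _ => by positivity) (fun j _ => by positivity) (fun j _ => by ring)
    refine a.trans (mul_le_mul_of_nonneg_right (wsum K k (Finset.mem_range.1 hk)) ?_)
    exact Finset.sum_nonneg (fun j _ => by positivity)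
  refine (Finset.sum_le_sum h1).trans ?_
  rw [← Finset.mul_sum, Finset.sum_comm]
  have h2 : ∀ j ∈ range K, ∑ k ∈ range K, ‖c j‖ ^ 2 * (1 / ((k : ℝ) - j) ^ 2) ≤
      4 * ‖c j‖ ^ 2 := by
    intro j hj
    rw [← Finset.mul_sum, mul_comm]
    apply mul_le_mul_of_nonneg_right _ (by positivity)
    refine le_trans (le_of_eq ?_) (wsum K j (Finset.mem_range.1 hj))
    apply Finset.sum_congr rfl
    intro k _
    congr 1
    ring
  have h3 := Finset.sum_le_sum h2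
  rw [← Finset.mul_sum] at h3
  linarith

end H738

theorem blk_hilb (c : ℕ → ℂ) (s : ℝ) (K : ℕ) (hs : 1000 ≤ s)
    (hH : ∀ (c : ℤ → ℂ) (F G : Finset ℤ),
      ∑ m ∈ G, ‖∑ n ∈ F, c n / ((m : ℂ) + 1 / 2 - n)‖ ^ 2 ≤ 10 * ∑ n ∈ F, ‖c n‖ ^ 2) :
    ∃ p : ℕ → ℝ, ∑ k ∈ range K, p k ^ 2 ≤ 10 ^ 4 * ∑ j ∈ range K, ‖c j‖ ^ 2 ∧
      ∀ k < K, ‖c k‖ ≤ p k ∧ ∀ u : ℝ, |u| ≤ s / 2 →
        ‖∑ j ∈ (range K).erase k, c j / ((((k : ℝ) - j) * s + u : ℝ) : ℂ)‖ ≤ p k / s ∧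
        ‖∑ j ∈ (range K).erase k, c j / ((((k : ℝ) - j) * s + u + 1 / 2 : ℝ) : ℂ)‖ ≤ p k / s ∧
        ‖∑ j ∈ (range K).erase k, c j / ((((k : ℝ) - j) * s + u + 1 / 2 : ℝ) : ℂ) -
          ∑ j ∈ (range K).erase k, c j / ((((k : ℝ) - j) * s + u : ℝ) : ℂ)‖ ≤ p k / s ^ 2 := by
  have hs0 : 0 < s := by linarith
  refine ⟨fun k => ‖∑ j ∈ range K, c j / ((k : ℂ) + 1 / 2 - j)‖ + 2 * ‖c k‖ +
    5 * ∑ j ∈ range K, ‖c j‖ * (1 / ((k : ℝ) - j) ^ 2), ?_, ?_⟩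
  · have h1 := hH (fun n => c n.toNat) ((range K).map Nat.castEmbedding)
      ((range K).map Nat.castEmbedding)
    simp only [Finset.sum_map, Nat.castEmbedding_apply, Int.toNat_natCast, Int.cast_natCast] at h1
    have h2 := H738.schur c K
    have h3 : ∀ k ∈ range K, (‖∑ j ∈ range K, c j / ((k : ℂ) + 1 / 2 - j)‖ + 2 * ‖c k‖ +
        5 * ∑ j ∈ range K, ‖c j‖ * (1 / ((k : ℝ) - j) ^ 2)) ^ 2 ≤
        3 * ‖∑ j ∈ range K, c j / ((k : ℂ) + 1 / 2 - j)‖ ^ 2 + 12 * ‖c k‖ ^ 2 +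
          75 * (∑ j ∈ range K, ‖c j‖ * (1 / ((k : ℝ) - j) ^ 2)) ^ 2 := by
      intro k _
      set a := ‖∑ j ∈ range K, c j / ((k : ℂ) + 1 / 2 - j)‖
      set b := ‖c k‖
      set d := ∑ j ∈ range K, ‖c j‖ * (1 / ((k : ℝ) - j) ^ 2)
      nlinarith [sq_nonneg (a - 2 * b), sq_nonneg (a - 5 * d), sq_nonneg (2 * b - 5 * d)]
    refine (Finset.sum_le_sum h3).trans ?_
    rw [Finset.sum_add_distrib, Finset.sum_add_distrib, ← Finset.mul_sum, ← Finset.mul_sum,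
      ← Finset.mul_sum]
    have h4 : 0 ≤ ∑ j ∈ range K, ‖c j‖ ^ 2 := Finset.sum_nonneg (fun j _ => by positivity)
    linarith
  · intro k hk
    have h5 : 0 ≤ ∑ j ∈ range K, ‖c j‖ * (1 / ((k : ℝ) - j) ^ 2) :=
      Finset.sum_nonneg (fun j _ => by positivity)
    have h6 := norm_nonneg (c k)
    have h7 := norm_nonneg (∑ j ∈ range K, c j / ((k : ℂ) + 1 / 2 - j))
    refine ⟨by linarith, fun u hu => ?_⟩
    have v1 : |u / s| ≤ 51 / 100 := by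
      rw [abs_div, abs_of_pos hs0, div_le_iff₀ hs0]; linarith
    have v2 : |(u + 1 / 2) / s| ≤ 51 / 100 := by
      rw [abs_div, abs_of_pos hs0, div_le_iff₀ hs0]
      rw [abs_le] at hu ⊢
      constructor <;> linarith [hu.1, hu.2]
    have hn : ‖(s : ℂ)‖ = s := by rw [Complex.norm_real, Real.norm_eq_abs, abs_of_pos hs0]
    simp only [add_assoc _ u (1 / 2)]
    rw [H738.scale c K k hs0 u, H738.scale c K k hs0 (u + 1 / 2), ← sub_div, norm_div, norm_div,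
      norm_div, hn]
    refine ⟨div_le_div_of_nonneg_right (H738.main c K k hk v1) hs0.le,
      div_le_div_of_nonneg_right (H738.main c K k hk v2) hs0.le, ?_⟩
    have hb : |u / s - (u + 1 / 2) / s| ≤ 1 / s := by
      have e : u / s - (u + 1 / 2) / s = -(1 / 2 / s) := by ring
      rw [e, abs_neg, abs_of_pos (by positivity)]
      exact div_le_div_of_nonneg_right (by norm_num) hs0.le
    have h8 := H738.sdiff c K k v2 v1 hb
    rw [pow_two s, ← div_div]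
    apply div_le_div_of_nonneg_right _ hs0.le
    refine h8.trans ?_
    rw [le_div_iff₀ hs0]
    have e : 1 / s * (9 / 2) * (∑ j ∈ range K, ‖c j‖ * (1 / ((k : ℝ) - j) ^ 2)) * s =
        9 / 2 * ∑ j ∈ range K, ‖c j‖ * (1 / ((k : ℝ) - j) ^ 2) := by field_simp
    rw [e]
    linarith

end Pool.Agent.H590Z.HC
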