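import Pool.Agent.H800Z.Erg.St2

set_option autoImplicit false

open MeasureTheory Filter Topology
open scoped ENNReal NNReal InnerProductSpace

namespace Pool.Agent.H738Z.Conc

open Pool.Agent.H800Z.Erg

section koop

variable [MeasurableSpace G] {X : Type} [MeasurableSpace X] [MulAction G X] {μ : Measure X}
  [IsProbabilityMeasure μ]

/-- the Koopman operator -/
noncomputable def K (A : Act X μ) (g : G) : Lp ℂ 2 μ →ₗᵢ[ℂ] Lp ℂ 2 μ :=
  Lp.compMeasurePreservingₗᵢ ℂ (fun x : X => g⁻¹ • x) (A.pres g⁻¹)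

omit [IsProbabilityMeasure μ] in
lemma K_coe (A : Act X μ) (g : G) (v : Lp ℂ 2 μ) : K A g v =ᵐ[μ] fun x => v (g⁻¹ • x) :=
  Lp.coeFn_compMeasurePreserving v (A.pres g⁻¹)

omit [IsProbabilityMeasure μ] in
lemma K_coe' (A : Act X μ) (g : G) (v : Lp ℂ 2 μ) {f : X → ℂ} (h : v =ᵐ[μ] f) :
    K A g v =ᵐ[μ] fun x => f (g⁻¹ • x) :=
  (K_coe A g v).trans ((A.pres g⁻¹).quasiMeasurePreserving.ae_eq_comp h)

/-- mean zero functions -/
noncomputable def H0 (μ : Measure X) [IsProbabilityMeasure μ] : Submodule ℂ (Lp ℂ 2 μ) :=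
  (ℂ ∙ (Lp.const 2 μ (1 : ℂ)))ᗮ

omit [MeasurableSpace G] [MulAction G X] in
instance : CompleteSpace (H0 μ) := by unfold H0; infer_instance

omit [MeasurableSpace G] [MulAction G X] in
lemma mem_H0 (v : Lp ℂ 2 μ) : v ∈ H0 μ ↔ ∫ x, v x ∂μ = 0 := by
  unfold H0
  rw [Submodule.mem_orthogonal_singleton_iff_inner_right, L2.inner_def]
  have : ∫ x, ⟪(Lp.const 2 μ (1 : ℂ)) x, v x⟫_ℂ ∂μ = ∫ x, v x ∂μ := by
    apply integral_congr_ae
    filter_upwards [Lp.coeFn_const 2 μ (1 : ℂ)] with x hx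
    rw [hx]
    simp
  rw [this]

omit [IsProbabilityMeasure μ] in
lemma int_smul {E : Type} [NormedAddCommGroup E] [NormedSpace ℝ E] (A : Act X μ) (g : G)
    {f : X → E} (hf : AEStronglyMeasurable f μ) : ∫ x, f (g • x) ∂μ = ∫ x, f x ∂μ := by
  have h := A.pres g
  have h1 := integral_map (μ := μ) h.measurable.aemeasurable (f := f) (by rw [h.map_eq]; exact hf)
  rw [h.map_eq] at h1
  exact h1.symm

lemma K_mem (A : Act X μ) (g : G) (v : H0 μ) : K A g v ∈ H0 μ := by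
  rw [mem_H0, integral_congr_ae (K_coe A g v), int_smul A g⁻¹ (Lp.aestronglyMeasurable _)]
  exact (mem_H0 _).1 v.2

/-- the Koopman representation on mean zero functions -/
noncomputable def U (A : Act X μ) : G →* (H0 μ →L[ℂ] H0 μ) where
  toFun g := ((K A g).toContinuousLinearMap.comp (H0 μ).subtypeL).codRestrict (H0 μ) (K_mem A g)
  map_one' := by
    ext1 v
    apply Subtype.ext
    apply Lp.ext
    refine (K_coe A 1 v).trans ?_
    simp
  map_mul' g h := by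
    ext1 v
    apply Subtype.ext
    apply Lp.ext
    refine (K_coe A (g * h) v).trans (EventuallyEq.symm ?_)
    refine (K_coe' A g (K A h v) (K_coe A h v)).trans ?_
    simp [mul_smul]

lemma U_coe (A : Act X μ) (g : G) (v : H0 μ) : ((U A g v : H0 μ) : Lp ℂ 2 μ) = K A g v := rfl

lemma U_norm (A : Act X μ) (g : G) (v : H0 μ) : ‖U A g v‖ = ‖v‖ := by
  show ‖K A g v‖ = ‖(v : Lp ℂ 2 μ)‖
  exact (K A g).norm_map _

lemma U_meas [BorelSpace G] (A : Act X μ) (v w : H0 μ) :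
    Measurable fun g => ⟪w, U A g v⟫_ℂ := by
  have e : (fun g => ⟪w, U A g v⟫_ℂ) =
      fun g : G => ∫ x, ⟪(w : Lp ℂ 2 μ) x, (v : Lp ℂ 2 μ) (g⁻¹ • x)⟫_ℂ ∂μ := by
    funext g
    rw [Submodule.coe_inner, U_coe, L2.inner_def]
    apply integral_congr_ae
    filter_upwards [K_coe A g v] with x hx
    rw [hx]
  rw [e]
  apply StronglyMeasurable.measurable
  apply StronglyMeasurable.integral_prod_right
    (f := fun (g : G) (x : X) => ⟪(w : Lp ℂ 2 μ) x, (v : Lp ℂ 2 μ) (g⁻¹ • x)⟫_ℂ)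
  exact ((Lp.stronglyMeasurable (w : Lp ℂ 2 μ)).comp_measurable measurable_snd).inner
    ((Lp.stronglyMeasurable (v : Lp ℂ 2 μ)).comp_measurable
      (A.meas.comp (measurable_fst.inv.prodMk measurable_snd)))

omit [MeasurableSpace G] [IsProbabilityMeasure μ] in
lemma gap_real {Q : Set G} {ε : ℝ}
    (hQ : ∀ f : X → ℝ, MemLp f 2 μ → ∫ y, f y ∂μ = 0 → eLpNorm f 2 μ = 1 →
      ∃ g ∈ Q, ENNReal.ofReal ε ≤ eLpNorm (fun y => f (g • y) - f y) 2 μ)
    (f : X → ℝ) (hf : MemLp f 2 μ) (h0 : ∫ y, f y ∂μ = 0) :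
    ∃ g ∈ insert (1 : G) Q, ENNReal.ofReal ε * eLpNorm f 2 μ ≤
      eLpNorm (fun y => f (g • y) - f y) 2 μ := by
  by_cases hz : eLpNorm f 2 μ = 0
  · exact ⟨1, Set.mem_insert _ _, by rw [hz, mul_zero]; exact zero_le⟩
  have ht : eLpNorm f 2 μ ≠ ∞ := hf.2.ne
  set c : ℝ := (eLpNorm f 2 μ).toReal with hc
  have hc0 : 0 < c := ENNReal.toReal_pos hz ht
  have hce : ‖c⁻¹‖ₑ = (eLpNorm f 2 μ)⁻¹ := by
    rw [Real.enorm_eq_ofReal (inv_nonneg.2 hc0.le), ENNReal.ofReal_inv_of_pos hc0, hc,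
      ENNReal.ofReal_toReal ht]
  obtain ⟨g, hg, h⟩ := hQ (c⁻¹ • f) (hf.const_smul _)
    (by simp only [Pi.smul_apply, smul_eq_mul]; rw [integral_const_mul, h0, mul_zero])
    (by rw [eLpNorm_const_smul, hce, ENNReal.inv_mul_cancel hz ht])
  refine ⟨g, Set.mem_insert_of_mem _ hg, ?_⟩
  have e : (fun y => (c⁻¹ • f) (g • y) - (c⁻¹ • f) y) = c⁻¹ • fun y => f (g • y) - f y := by
    funext y; simp [mul_sub]
  rw [e, eLpNorm_const_smul, hce] at h
  calc ENNReal.ofReal ε * eLpNorm f 2 μ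
      ≤ (eLpNorm f 2 μ)⁻¹ * eLpNorm (fun y => f (g • y) - f y) 2 μ * eLpNorm f 2 μ :=
        mul_le_mul_left h _
    _ = _ := by
      rw [mul_comm, ← mul_assoc, ENNReal.mul_inv_cancel hz ht, one_mul]

lemma U_gap (A : Act X μ) (hG : Gap X μ) :
    ∃ Q : Set G, IsCompact Q ∧ ∃ ε : ℝ, 0 < ε ∧ ∀ v : H0 μ, ∃ q ∈ Q,
      ε * ‖v‖ ≤ ‖U A q v - v‖ := by
  obtain ⟨Q, hQ, ε, hε, hg⟩ := hG
  refine ⟨(insert (1 : G) Q)⁻¹, (hQ.insert 1).inv, ε / 2, half_pos hε, fun v => ?_⟩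
  set u : Lp ℂ 2 μ := v.1 with hu
  have hm : MemLp u 2 μ := Lp.memLp u
  have hi : Integrable u μ := hm.integrable (by norm_num)
  have h0 : ∫ x, u x ∂μ = 0 := (mem_H0 _).1 v.2
  have key : ∀ f : X → ℝ, MemLp f 2 μ → ∫ y, f y ∂μ = 0 →
      (∀ x y, ‖f x - f y‖ ≤ ‖u x - u y‖) → eLpNorm u 2 μ ≤ 2 * eLpNorm f 2 μ →
      ∃ q ∈ (insert (1 : G) Q)⁻¹, ε / 2 * ‖v‖ ≤ ‖U A q v - v‖ := by
    intro f hf hf0 h1 h2
    obtain ⟨g, hgQ, h3⟩ := gap_real hg f hf hf0
    refine ⟨g⁻¹, Set.inv_mem_inv.2 hgQ, ?_⟩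
    have e1 : (K A g⁻¹ u - u : Lp ℂ 2 μ) =ᵐ[μ] fun y => u (g • y) - u y := by
      filter_upwards [Lp.coeFn_sub (K A g⁻¹ u) u, K_coe A g⁻¹ u] with x h1 h2
      rw [h1, Pi.sub_apply, h2, inv_inv]
    have h4 : eLpNorm (fun y => f (g • y) - f y) 2 μ ≤ eLpNorm (K A g⁻¹ u - u : Lp ℂ 2 μ) 2 μ := by
      rw [eLpNorm_congr_ae e1]
      exact eLpNorm_mono (fun y => h1 _ _)
    have h5 : ENNReal.ofReal (ε / 2) * eLpNorm u 2 μ ≤
        eLpNorm (K A g⁻¹ u - u : Lp ℂ 2 μ) 2 μ := by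
      refine le_trans ?_ (h3.trans h4)
      refine (mul_le_mul_right h2 _).trans (le_of_eq ?_)
      rw [← mul_assoc]
      congr 1
      rw [← ENNReal.ofReal_ofNat 2, ← ENNReal.ofReal_mul (half_pos hε).le]
      congr 1
      ring
    have h6 := ENNReal.toReal_mono (Lp.eLpNorm_ne_top _) h5
    rw [ENNReal.toReal_mul, ENNReal.toReal_ofReal (half_pos hε).le, ← Lp.norm_def,
      ← Lp.norm_def] at h6
    exact h6
  have hs : eLpNorm u 2 μ ≤ eLpNorm (fun x => (u x).re) 2 μ + eLpNorm (fun x => (u x).im) 2 μ := by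
    have a1 : eLpNorm u 2 μ ≤
        eLpNorm ((fun x => ‖(u x).re‖) + fun x => ‖(u x).im‖) 2 μ :=
      eLpNorm_mono_real (fun x => Complex.norm_le_abs_re_add_abs_im (u x))
    refine a1.trans ((eLpNorm_add_le hm.re.1.norm hm.im.1.norm (by norm_num)).trans ?_)
    rw [eLpNorm_norm, eLpNorm_norm]
    rfl
  rcases le_total (eLpNorm (fun x => (u x).re) 2 μ) (eLpNorm (fun x => (u x).im) 2 μ) with h | h
  · refine key (fun x => (u x).im) hm.im ?_ (fun x y => ?_) ?_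
    · have := integral_im hi
      rw [h0] at this
      simpa using this
    · rw [← Complex.sub_im]; exact Complex.abs_im_le_norm _
    · rw [two_mul]; exact hs.trans (add_le_add h le_rfl)
  · refine key (fun x => (u x).re) hm.re ?_ (fun x y => ?_) ?_
    · have := integral_re hi
      rw [h0] at this
      simpa using this
    · rw [← Complex.sub_re]; exact Complex.abs_re_le_norm _
    · rw [two_mul]; exact hs.trans (add_le_add le_rfl h)

omit [MeasurableSpace G] [MulAction G X] [IsProbabilityMeasure μ] in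
lemma inner_real (w v : Lp ℂ 2 μ) {f h : X → ℝ} (hw : w =ᵐ[μ] fun x => (f x : ℂ))
    (hv : v =ᵐ[μ] fun x => (h x : ℂ)) : ⟪w, v⟫_ℂ = ((∫ x, f x * h x ∂μ : ℝ) : ℂ) := by
  rw [L2.inner_def, ← integral_complex_ofReal]
  apply integral_congr_ae
  filter_upwards [hw, hv] with x h1 h2
  rw [h1, h2]
  simp [mul_comm]

omit [MeasurableSpace G] [MulAction G X] [IsProbabilityMeasure μ] in
lemma norm_real (w : Lp ℂ 2 μ) {f : X → ℝ} (hw : w =ᵐ[μ] fun x => (f x : ℂ)) :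
    ‖w‖ ^ 2 = ∫ x, f x ^ 2 ∂μ := by
  have h := inner_real w w hw hw
  rw [inner_self_eq_norm_sq_to_K] at h
  have h2 : ((‖w‖ ^ 2 : ℝ) : ℂ) = ((∫ x, f x * f x ∂μ : ℝ) : ℂ) := by
    rw [← h]; simp
  have h3 := Complex.ofReal_injective h2
  rw [h3]
  simp only [pow_two]

omit [MeasurableSpace G] [MulAction G X] in
lemma exists_H0 {f : X → ℝ} (hf : Measurable f) {b : ℝ} (hb : ∀ x, |f x| ≤ b)
    (h0 : ∫ x, f x ∂μ = 0) : ∃ v : H0 μ, (v : Lp ℂ 2 μ) =ᵐ[μ] fun x => (f x : ℂ) := by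
  have hm : MemLp (fun x => (f x : ℂ)) 2 μ :=
    MemLp.of_bound (Complex.measurable_ofReal.comp hf).aestronglyMeasurable b
      (Eventually.of_forall fun x => by rw [Complex.norm_real]; exact hb x)
  refine ⟨⟨hm.toLp _, ?_⟩, hm.coeFn_toLp⟩
  rw [mem_H0, integral_congr_ae hm.coeFn_toLp, integral_complex_ofReal, h0]
  simp

lemma fub [BorelSpace G] (m : Measure G) [m.IsHaarMeasure] (A : Act X μ) {τ : ℝ} (hτ : 0 < τ)
    {f h : X → ℝ} (hf : Measurable f) (hh : Measurable h) {b c : ℝ} (hb : ∀ x, |f x| ≤ b)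
    (hc : ∀ x, |h x| ≤ c) :
    ∫ x, h x * ∫ g, ker 0 τ g * f (g • x) ∂m ∂μ =
      ∫ g, ker 0 τ g * ∫ x, h x * f (g • x) ∂μ ∂m := by
  have hi : Integrable (Function.uncurry fun (g : G) (x : X) => ker 0 τ g * (h x * f (g • x)))
      (m.prod μ) := by
    refine (((integrable_ker m 0 hτ).mul_const (c * b)).comp_fst μ).mono' ?_
      (Eventually.of_forall fun p => ?_)
    · exact (((continuous_ker 0 τ).measurable.comp measurable_fst).mul
        ((hh.comp measurable_snd).mul (hf.comp A.meas))).aestronglyMeasurable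
    · simp only [Function.uncurry]
      rw [Real.norm_eq_abs, abs_mul, abs_of_pos (ker_pos 0 τ p.1), abs_mul]
      exact mul_le_mul_of_nonneg_left (mul_le_mul (hc _) (hb _) (abs_nonneg _)
        ((abs_nonneg _).trans (hc p.2))) (ker_pos 0 τ p.1).le
  have h1 := integral_integral_swap hi
  simp only [integral_const_mul] at h1
  rw [h1]
  apply integral_congr_ae
  refine Eventually.of_forall fun x => ?_
  simp only
  rw [← integral_const_mul]
  apply integral_congr_ae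
  refine Eventually.of_forall fun g => ?_
  simp only
  ring

end koop

theorem thm_conc (h : S_decay) : S_conc := by
  intro _ _ m _ X _ _ μ _ A hG
  obtain ⟨C, c, hc, hD⟩ := h m (H0 μ) (U A) (U_norm A) (U_meas A) (U_gap A hG)
  refine ⟨C, c, hc, ?_⟩
  rintro ψ hψ ⟨b, hb⟩ τ hτ hτ1
  have hk := integrable_ker m 0 hτ
  have hψ2 : MemLp ψ 2 μ := MemLp.of_bound hψ.aestronglyMeasurable b (Eventually.of_forall hb)
  have hψi : Integrable ψ μ := hψ2.integrable (by norm_num)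
  set I : ℝ := ∫ y, ψ y ∂μ with hI
  set f : X → ℝ := fun x => ψ x - I with hf
  have hfm : Measurable f := hψ.sub_const I
  have hfb : ∀ x, |f x| ≤ b + |I| := fun x => (abs_sub _ _).trans (add_le_add (hb x) le_rfl)
  have hf0 : ∫ x, f x ∂μ = 0 := by
    rw [hf, integral_sub hψi (integrable_const I)]
    simp [hI]
  set Φ : X → ℝ := fun x => ∫ g, ker 0 τ g * f (g • x) ∂m with hΦ
  have hΦm : Measurable Φ := by
    apply StronglyMeasurable.measurable
    apply StronglyMeasurable.integral_prod_left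
      (f := fun (g : G) (x : X) => ker 0 τ g * f (g • x))
    exact (((continuous_ker 0 τ).measurable.comp measurable_fst).mul
      (hfm.comp A.meas)).stronglyMeasurable
  have hΦb : ∀ x, |Φ x| ≤ ∫ g, ker 0 τ g * (b + |I|) ∂m := by
    intro x
    rw [← Real.norm_eq_abs]
    refine norm_integral_le_of_norm_le (hk.mul_const _) (Eventually.of_forall fun g => ?_)
    rw [Real.norm_eq_abs, abs_mul, abs_of_pos (ker_pos 0 τ g)]
    exact mul_le_mul_of_nonneg_left (hfb _) (ker_pos 0 τ g).le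
  have hΦe : ∀ x, ∫ g, ker 0 τ g * ψ (g • x) ∂m - V m τ * I = Φ x := by
    intro x
    have i1 : Integrable (fun g : G => ker 0 τ g * ψ (g • x)) m := by
      refine (hk.mul_const b).mono' ?_ (Eventually.of_forall fun g => ?_)
      · exact ((continuous_ker 0 τ).measurable.mul
          (hψ.comp (A.meas.comp (measurable_id.prodMk measurable_const)))).aestronglyMeasurable
      · rw [Real.norm_eq_abs, abs_mul, abs_of_pos (ker_pos 0 τ g)]
        exact mul_le_mul_of_nonneg_left (hb _) (ker_pos 0 τ g).le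
    simp only [hΦ, hf, mul_sub]
    rw [integral_sub i1 (hk.mul_const I), integral_mul_const]
    rfl
  have hΦ0 : ∫ x, Φ x ∂μ = 0 := by
    have := fub m A hτ hfm (measurable_const (a := (1 : ℝ))) hfb (c := 1) (fun _ => by simp)
    simp only [one_mul] at this
    rw [hΦ, this]
    have e : ∀ g : G, ∫ x, f (g • x) ∂μ = 0 := fun g => by
      rw [int_smul A g hfm.aestronglyMeasurable, hf0]
    simp [e]
  obtain ⟨v, hv⟩ := exists_H0 hfm hfb hf0
  obtain ⟨w, hw⟩ := exists_H0 hΦm hΦb hΦ0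
  have h1 := hD τ hτ hτ1 v w
  have h2 : ∀ g : G, ⟪w, U A g v⟫_ℂ = ((∫ x, Φ x * f (g⁻¹ • x) ∂μ : ℝ) : ℂ) := by
    intro g
    rw [Submodule.coe_inner, U_coe]
    exact inner_real _ _ hw (K_coe' A g _ hv)
  have h4 : ‖w‖ ^ 2 = ∫ x, Φ x ^ 2 ∂μ := norm_real _ hw
  have h5 : ‖v‖ ^ 2 = ∫ x, f x ^ 2 ∂μ := norm_real _ hv
  have h3 : ∫ g, (ker 0 τ g : ℂ) * ⟪w, U A g v⟫_ℂ ∂m = ((‖w‖ ^ 2 : ℝ) : ℂ) := by
    simp only [h2, ← Complex.ofReal_mul]
    rw [integral_complex_ofReal]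
    congr 1
    have := isInvInvariant m
    have e := integral_inv_eq_self
      (fun g : G => ker 0 τ g * ∫ x, Φ x * f (g • x) ∂μ) m
    have e2 : ∀ g : G, ker 0 τ g⁻¹ = ker 0 τ g := fun g => by rw [ker_zero, ker_zero, N_inv]
    simp only [e2] at e
    rw [e, ← fub m A hτ hfm hΦm hfb hΦb, h4]
    simp only [pow_two, hΦ]
  rw [h3, Complex.norm_real, Real.norm_of_nonneg (sq_nonneg _)] at h1
  have h6 : ∫ x, f x ^ 2 ∂μ ≤ ∫ x, ψ x ^ 2 ∂μ := by
    have e : ∀ x, f x ^ 2 = ψ x ^ 2 - (2 * I) * ψ x + I ^ 2 := fun x => by rw [hf]; ring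
    simp only [e]
    have i2 : Integrable (fun x => ψ x ^ 2) μ := hψ2.integrable_sq
    have i3 : Integrable (fun x => ψ x ^ 2 - 2 * I * ψ x) μ := i2.sub (hψi.const_mul _)
    rw [integral_add i3 (integrable_const _),
      integral_sub i2 (hψi.const_mul _), integral_const_mul, ← hI]
    simp only [integral_const, probReal_univ, one_smul]
    nlinarith [sq_nonneg I]
  simp only [hΦe]
  rw [← h4]
  set D := C * τ ^ c / τ
  have h7 : ‖w‖ ^ 2 ≤ D ^ 2 * ‖v‖ ^ 2 := by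
    nlinarith [sq_nonneg (‖w‖ - D * ‖v‖)]
  refine h7.trans (mul_le_mul_of_nonneg_left ?_ (sq_nonneg D))
  rw [h5]
  exact h6

end Pool.Agent.H738Z.Conc
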